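import Pool.Agent.L0h38.GI.Stm

/-!
# Project GI, module CEN: centralisers of vertex groups
-/

set_option autoImplicit false

namespace Pool.Agent.L0h64.GI

open Pool.Agent.L0h38.GI Pool.Agent.L0h29.AL

section amal

variable {Q : Type} [Group Q] (S : Amal Q)

/-- reduced words -/
def Rd (l : List (Bool × Q)) : Prop :=
  (∀ x ∈ l, x.2 ∈ S.A x.1 ∧ x.2 ∉ S.C) ∧ l.IsChain (fun x y => x.1 ≠ y.1)

theorem rd_nil : Rd S [] := ⟨by simp, by simp⟩

theorem rd_tail {a : Bool × Q} {l : List (Bool × Q)} (h : Rd S (a :: l)) : Rd S l :=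
  ⟨fun x hx => h.1 x (List.mem_cons_of_mem _ hx), h.2.tail⟩

theorem rd_repl {τ : Bool} {s s' : Q} {l : List (Bool × Q)} (h : Rd S ((τ, s) :: l))
    (hs : s' ∈ S.A τ) (hs' : s' ∉ S.C) : Rd S ((τ, s') :: l) := by
  refine ⟨?_, ?_⟩
  · intro x hx
    rcases List.mem_cons.1 hx with rfl | hx
    · exact ⟨hs, hs'⟩
    · exact h.1 x (List.mem_cons_of_mem _ hx)
  · have h2 := h.2
    cases l with
    | nil => simp
    | cons b l =>
      rw [List.isChain_cons_cons] at h2 ⊢
      exact h2

theorem rd_cons {τ : Bool} {s : Q} {l : List (Bool × Q)} (h : Rd S l)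
    (hs : s ∈ S.A τ) (hs' : s ∉ S.C) (hl : ∀ a ∈ l.head?, τ ≠ a.1) : Rd S ((τ, s) :: l) := by
  refine ⟨?_, ?_⟩
  · intro x hx
    rcases List.mem_cons.1 hx with rfl | hx
    · exact ⟨hs, hs'⟩
    · exact h.1 x hx
  · cases l with
    | nil => simp
    | cons b l =>
      rw [List.isChain_cons_cons]
      exact ⟨hl b (by simp), h.2⟩

/-- elements with a normal form -/
def Gd (y : Q) : Prop := ∃ (l : List (Bool × Q)) (c : Q), Rd S l ∧ c ∈ S.C ∧
  y = (l.map Prod.snd).prod * c

theorem gd_C {y c : Q} (hc : c ∈ S.C) (h : Gd S y) : Gd S (c * y) := by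
  obtain ⟨l, c0, hl, hc0, rfl⟩ := h
  cases l with
  | nil => exact ⟨[], c * c0, hl, mul_mem hc hc0, by simp⟩
  | cons b l =>
    obtain ⟨τ, s⟩ := b
    have hb := hl.1 (τ, s) (by simp)
    refine ⟨(τ, c * s) :: l, c0, rd_repl S hl (mul_mem (S.le τ hc) hb.1) ?_, hc0, ?_⟩
    · intro h
      apply hb.2
      have : c⁻¹ * (c * s) ∈ S.C := mul_mem (inv_mem hc) h
      simpa using this
    · simp [mul_assoc]

theorem gd_A {y a : Q} (τ : Bool) (ha : a ∈ S.A τ) (h : Gd S y) : Gd S (a * y) := by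
  by_cases hac : a ∈ S.C
  · exact gd_C S hac h
  obtain ⟨l, c0, hl, hc0, rfl⟩ := h
  cases l with
  | nil => exact ⟨[(τ, a)], c0, rd_cons S hl ha hac (by simp), hc0, by simp⟩
  | cons b l =>
    obtain ⟨σ, s⟩ := b
    have hb := hl.1 (σ, s) (by simp)
    by_cases hτ : τ = σ
    · subst hτ
      by_cases has : a * s ∈ S.C
      · have := gd_C S has ⟨l, c0, rd_tail S hl, hc0, rfl⟩
        simpa [mul_assoc] using this
      · exact ⟨(τ, a * s) :: l, c0, rd_repl S hl (mul_mem ha hb.1) has, hc0, by simp [mul_assoc]⟩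
    · exact ⟨(τ, a) :: (σ, s) :: l, c0, rd_cons S hl ha hac (by simpa using hτ), hc0,
        by simp [mul_assoc]⟩

theorem gd_all (y : Q) : Gd S y := by
  have hy : y ∈ Subgroup.closure ((S.A true : Set Q) ∪ S.A false) := by
    rw [Subgroup.closure_union, Subgroup.closure_eq, Subgroup.closure_eq, S.gen]
    trivial
  have key : ∀ y ∈ Subgroup.closure ((S.A true : Set Q) ∪ S.A false),
      (∀ z, Gd S z → Gd S (y * z)) ∧ (∀ z, Gd S z → Gd S (y⁻¹ * z)) := by
    intro y hy
    induction hy using Subgroup.closure_induction with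
    | mem x hx =>
      rcases hx with hx | hx
      · exact ⟨fun z hz => gd_A S true hx hz, fun z hz => gd_A S true (inv_mem hx) hz⟩
      · exact ⟨fun z hz => gd_A S false hx hz, fun z hz => gd_A S false (inv_mem hx) hz⟩
    | one => exact ⟨fun z hz => by simpa using hz, fun z hz => by simpa using hz⟩
    | mul a b _ _ iha ihb =>
      refine ⟨fun z hz => ?_, fun z hz => ?_⟩
      · rw [mul_assoc]; exact iha.1 _ (ihb.1 _ hz)
      · rw [mul_inv_rev, mul_assoc]; exact ihb.2 _ (iha.2 _ hz)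
    | inv a ha iha => exact ⟨iha.2, fun z hz => by rw [inv_inv]; exact iha.1 z hz⟩
  have := (key y hy).1 1 ⟨[], 1, rd_nil S, one_mem _, by simp⟩
  simpa using this

/-- a reduced word whose first letter is not of type `τ` is not in `A τ` -/
theorem rd_ne {τ σ : Bool} {s : Q} {l : List (Bool × Q)} (h : Rd S ((σ, s) :: l)) (hτ : τ ≠ σ) :
    (((σ, s) :: l).map Prod.snd).prod ∉ S.A τ := by
  intro ha
  by_cases hc : (((σ, s) :: l).map Prod.snd).prod ∈ S.C
  · exact S.red _ (by simp) h.1 h.2 hc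
  · have h1 : Rd S ((τ, ((((σ, s) :: l).map Prod.snd).prod)⁻¹) :: (σ, s) :: l) :=
      rd_cons S h (inv_mem ha) (fun hh => hc (by simpa using inv_mem hh)) (by simpa using hτ)
    apply S.red _ (by simp) h1.1 h1.2
    rw [List.map_cons, List.prod_cons]
    simpa using one_mem S.C

/-- a reduced word with at least two letters is not in `A τ` -/
theorem rd_two {τ : Bool} {a b : Bool × Q} {l : List (Bool × Q)} (h : Rd S (a :: b :: l)) :
    ((a :: b :: l).map Prod.snd).prod ∉ S.A τ := by
  obtain ⟨σ, s⟩ := a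
  obtain ⟨ρ, t⟩ := b
  by_cases hτ : τ = σ
  · subst hτ
    have hρ : τ ≠ ρ := by
      have := h.2
      rw [List.isChain_cons_cons] at this
      exact this.1
    have h1 := rd_ne S (rd_tail S h) hρ
    intro hh
    apply h1
    have h2 : s⁻¹ * (((τ, s) :: (ρ, t) :: l).map Prod.snd).prod ∈ S.A τ :=
      mul_mem (inv_mem (h.1 (τ, s) (by simp)).1) hh
    rw [List.map_cons, List.prod_cons] at h2
    simpa using h2
  · exact rd_ne S h hτ

/-- inverse word -/
def iw (l : List (Bool × Q)) : List (Bool × Q) := (l.map fun p => (p.1, p.2⁻¹)).reverse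

theorem iw_prod (l : List (Bool × Q)) : ((iw l).map Prod.snd).prod = ((l.map Prod.snd).prod)⁻¹ := by
  unfold iw
  rw [List.prod_inv_reverse, List.map_reverse, List.map_map, List.map_map]
  rfl

theorem iw_rd {l : List (Bool × Q)} (h : Rd S l) : Rd S (iw l) := by
  refine ⟨?_, ?_⟩
  · intro x hx
    unfold iw at hx
    rw [List.mem_reverse, List.mem_map] at hx
    obtain ⟨y, hy, rfl⟩ := hx
    exact ⟨inv_mem (h.1 y hy).1, fun hh => (h.1 y hy).2 (by simpa using inv_mem hh)⟩
  · unfold iw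
    rw [List.isChain_reverse, List.isChain_map]
    exact h.2.imp fun a b hab => hab.symm

theorem key {l : List (Bool × Q)} {s : Q} (h : Rd S ((false, s) :: l)) {c0 X : Q} (hc0 : c0 ∈ S.C)
    (hX : X ∈ S.A true) (hX' : X ∉ S.C) :
    ((((false, s) :: l).map Prod.snd).prod * c0)⁻¹ * X *
      ((((false, s) :: l).map Prod.snd).prod * c0) ∉ S.A true := by
  intro hh
  set L := (false, s) :: l with hL
  have h1 : Rd S ((true, X) :: L) := rd_cons S h hX hX' (by simp [hL])
  have h2 : Rd S (iw L ++ ((true, X) :: L)) := by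
    refine ⟨?_, ?_⟩
    · intro x hx
      rcases List.mem_append.1 hx with hx | hx
      · exact (iw_rd S h).1 x hx
      · exact h1.1 x hx
    · rw [List.isChain_append]
      refine ⟨(iw_rd S h).2, h1.2, ?_⟩
      intro a ha b hb
      have hb' : b = (true, X) := by simpa using hb.symm
      have ha' : a = (false, s⁻¹) := by
        rw [hL] at ha
        unfold iw at ha
        simpa using ha.symm
      rw [ha', hb']
      simp
  have h3 : ((iw L ++ ((true, X) :: L)).map Prod.snd).prod ∈ S.A true := by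
    rw [List.map_append, List.prod_append, iw_prod, List.map_cons, List.prod_cons]
    have h4 : c0 * (((L.map Prod.snd).prod * c0)⁻¹ * X * ((L.map Prod.snd).prod * c0)) * c0⁻¹ ∈
        S.A true := mul_mem (mul_mem (S.le true hc0) hh) (inv_mem (S.le true hc0))
    have h5 : c0 * (((L.map Prod.snd).prod * c0)⁻¹ * X * ((L.map Prod.snd).prod * c0)) * c0⁻¹ =
        ((L.map Prod.snd).prod)⁻¹ * (X * (L.map Prod.snd).prod) := by group
    rw [h5] at h4
    exact h4
  -- the word has at least two letters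
  have h6 : ∃ a b l', iw L ++ ((true, X) :: L) = a :: b :: l' := by
    cases hw : iw L with
    | nil => exact ⟨_, _, _, by rw [hL]; rfl⟩
    | cons a m =>
      cases m with
      | nil => exact ⟨_, _, _, rfl⟩
      | cons b m => exact ⟨_, _, _, rfl⟩
  obtain ⟨a, b, l', h6⟩ := h6
  rw [h6] at h2 h3
  exact rd_two S h2 h3

end amal

theorem comm_lk {V : Type} {Γ : SimpleGraph V} {G : V → Type} [∀ v, Group (G v)] {v : V}
    {c : GrP Γ G} (hc : c ∈ P Γ G (Γ.neighborSet v)) (x : G v) : Commute (inj Γ G v x) c := by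
  have h : P Γ G (Γ.neighborSet v) ≤ Subgroup.centralizer {inj Γ G v x} := by
    rw [P_le]
    intro w hw y
    rw [Subgroup.mem_centralizer_singleton_iff]
    exact (inj_comm hw x y).eq.symm
  have := h hc
  rw [Subgroup.mem_centralizer_singleton_iff] at this
  exact this.symm

theorem star_dec {V : Type} {Γ : SimpleGraph V} {G : V → Type} [∀ v, Group (G v)] {v : V}
    {z : GrP Γ G} (hz : z ∈ P Γ G (insert v (Γ.neighborSet v))) :
    ∃ (a : G v) (c : GrP Γ G), c ∈ P Γ G (Γ.neighborSet v) ∧ z = inj Γ G v a * c := by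
  let H : Subgroup (GrP Γ G) :=
    { carrier := {z | ∃ (a : G v) (c : GrP Γ G), c ∈ P Γ G (Γ.neighborSet v) ∧
        z = inj Γ G v a * c}
      mul_mem' := by
        rintro _ _ ⟨a, c, hc, rfl⟩ ⟨a', c', hc', rfl⟩
        refine ⟨a * a', c * c', mul_mem hc hc', ?_⟩
        rw [map_mul, mul_assoc, mul_assoc, ← mul_assoc c, ← (comm_lk hc a').eq, mul_assoc]
      one_mem' := ⟨1, 1, one_mem _, by simp⟩
      inv_mem' := by
        rintro _ ⟨a, c, hc, rfl⟩
        refine ⟨a⁻¹, c⁻¹, inv_mem hc, ?_⟩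
        rw [(comm_lk hc a).eq, mul_inv_rev, map_inv] }
  have h : P Γ G (insert v (Γ.neighborSet v)) ≤ H := by
    rw [P_le]
    intro w hw x
    rcases hw with rfl | hw
    · exact ⟨x, 1, one_mem _, by simp⟩
    · exact ⟨1, inj Γ G w x, inj_mem hw x, by simp⟩
  exact h hz

theorem t_CEN (hA : S_AMA) (hR : S_RET) : S_CEN := by
  intro V Γ G _ v hv hx y hy
  obtain ⟨S, hS1, -, hSC⟩ := hA V Γ G v
  obtain ⟨x, hx⟩ := hx
  obtain ⟨-, -, -, -, hinj, hpi⟩ := hR V Γ G (Γ.neighborSet v) ∅
  have hvn : v ∉ Γ.neighborSet v := by simp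
  have hC : ∀ x : G v, x ≠ 1 → inj Γ G v x ∉ S.C := by
    intro x hx h
    rw [hSC] at h
    have := hpi _ h v hvn
    rw [toPi_inj_same] at this
    exact hx this
  have hT : ∀ x : G v, inj Γ G v x ∈ S.A true := by
    intro x
    rw [hS1]
    exact inj_mem (by simp) x
  obtain ⟨l, c0, hl, hc0, hyl⟩ := gd_all S y
  rw [← hSC]
  match l, hl, hyl with
  | [], hl, hyl => rw [hyl]; simpa using hc0
  | (false, s) :: l, hl, hyl =>
    exfalso
    apply key S hl hc0 (hT x) (hC x hx)
    rw [← hyl, mul_assoc, ← (hy x).eq, inv_mul_cancel_left]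
    exact hT x
  | [(true, s)], hl, hyl =>
    have hs := (hl.1 (true, s) (by simp)).1
    rw [hS1] at hs
    obtain ⟨a, c, hc, hsc⟩ := star_dec hs
    have h1 : y = inj Γ G v a * (c * c0) := by
      rw [hyl, List.map_cons, List.map_nil, List.prod_cons, List.prod_nil, mul_one, hsc, mul_assoc]
    have hcc : c * c0 ∈ P Γ G (Γ.neighborSet v) := mul_mem hc (hSC ▸ hc0)
    have ha : a = 1 := by
      apply hv
      intro g
      apply hinj v
      have h2 := (hy g).eq
      rw [h1, mul_assoc, ← (comm_lk hcc g).eq, ← mul_assoc,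
        ← mul_assoc (inj Γ G v g)] at h2
      rw [map_mul, map_mul]
      exact mul_right_cancel h2
    rw [h1, ha, map_one, one_mul, hSC]
    exact hcc
  | (true, s) :: (true, t) :: l, hl, hyl =>
    exfalso
    have := hl.2
    rw [List.isChain_cons_cons] at this
    exact this.1 rfl
  | (true, s) :: (false, t) :: l, hl, hyl =>
    exfalso
    have hs : s ∈ S.A true := (hl.1 (true, s) (by simp)).1
    rw [hS1] at hs
    obtain ⟨a, c, hc, hsc⟩ := star_dec hs
    have hX : a⁻¹ * x * a ≠ 1 := by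
      intro h
      apply hx
      have : x = a * (a⁻¹ * x * a) * a⁻¹ := by group
      rw [this, h]; group
    apply key S (rd_tail S hl) hc0 (hT (a⁻¹ * x * a)) (hC _ hX)
    have h1 : s⁻¹ * inj Γ G v x * s = inj Γ G v (a⁻¹ * x * a) := by
      rw [hsc]
      have h2 := (comm_lk hc (a⁻¹ * x * a)).eq
      calc (inj Γ G v a * c)⁻¹ * inj Γ G v x * (inj Γ G v a * c)
          = c⁻¹ * (inj Γ G v (a⁻¹ * x * a) * c) := by
            rw [map_mul, map_mul, map_inv]; group
        _ = inj Γ G v (a⁻¹ * x * a) := by rw [h2]; group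
    rw [← h1]
    have h3 : ((((false, t) :: l).map Prod.snd).prod * c0)⁻¹ * (s⁻¹ * inj Γ G v x * s) *
        ((((false, t) :: l).map Prod.snd).prod * c0) = y⁻¹ * inj Γ G v x * y := by
      rw [hyl, List.map_cons (a := (true, s)), List.prod_cons (a := (true, s).2)]
      group
    rw [h3, mul_assoc, ← (hy x).eq, inv_mul_cancel_left]
    exact hT x

end Pool.Agent.L0h64.GI
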