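import Pool.Agent.L0h38.GI.Stm

/-!
# Project GI, modules FAP and FAI: products of groups with property FA
-/

set_option autoImplicit false

namespace Pool.Agent.L0h64.GI

open Pool.Agent.L0h38.GI

theorem map_self {α : Type} (f : α → α) : ∀ L : List α, L.map f = L → ∀ u ∈ L, f u = u
  | [], _, u, hu => by simp at hu
  | a :: L, h, u, hu => by
    rw [List.map_cons, List.cons.injEq] at h
    rcases List.mem_cons.1 hu with rfl | hu
    · exact h.1
    · exact map_self f L h.2 u hu

theorem path_fixed {V : Type} {T : SimpleGraph V} (hT : T.IsAcyclic) (f : T →g T)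
    (hf : Function.Injective f) {v w : V} (hv : f v = v) (hw : f w = w) (p : T.Walk v w)
    (hp : p.IsPath) : ∀ u ∈ p.support, f u = u := by
  have h1 : ((p.map f).copy hv hw).IsPath := by
    rw [SimpleGraph.Walk.isPath_copy]
    exact hp.map hf
  have h2 := (hT.subsingleton_path v w).elim ⟨_, h1⟩ ⟨p, hp⟩
  have h3 : (p.map f).copy hv hw = p := congrArg Subtype.val h2
  have h4 := congrArg SimpleGraph.Walk.support h3
  rw [SimpleGraph.Walk.support_copy, SimpleGraph.Walk.support_map] at h4
  exact map_self f _ h4

theorem t_FAP : S_FAP := by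
  intro X Y _ _ hX hY V T act hT hadj hinv
  -- the action of X
  obtain ⟨v0, hv0⟩ := @hX V T (MulAction.compHom V (MonoidHom.inl X Y)) hT
    (fun g v w h => hadj _ v w h) (fun g v w h => hinv _ v w h)
  let F : Set V := {v | ∀ x : X, ((x, 1) : X × Y) • v = v}
  have hv0F : v0 ∈ F := hv0
  have hYF : ∀ (y : Y) (v : V), v ∈ F → ((1, y) : X × Y) • v ∈ F := by
    intro y v hv x
    rw [smul_smul]
    have : ((x, 1) : X × Y) * (1, y) = (1, y) * (x, 1) := by simp
    rw [this, ← smul_smul, hv x]
  let aF : MulAction Y F :=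
    { smul := fun y v => ⟨((1, y) : X × Y) • v.1, hYF y v.1 v.2⟩
      one_smul := fun v => Subtype.ext (one_smul (X × Y) v.1)
      mul_smul := fun a b v => Subtype.ext (by
        show ((1, a * b) : X × Y) • v.1 = ((1, a) : X × Y) • ((1, b) : X × Y) • v.1
        rw [smul_smul]; simp) }
  have hTF : (T.induce F).IsTree := by
    refine ⟨?_, hT.isAcyclic.induce F⟩
    rw [SimpleGraph.connected_iff]
    refine ⟨?_, ⟨⟨v0, hv0F⟩⟩⟩
    rintro ⟨v, hv⟩ ⟨w, hw⟩
    obtain ⟨p, hp, -⟩ := hT.existsUnique_path v w
    have hs : ∀ u ∈ p.support, u ∈ F := by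
      intro u hu x
      let f : T →g T := ⟨fun v => ((x, 1) : X × Y) • v, fun {a b} h => hadj _ a b h⟩
      exact path_fixed hT.isAcyclic f (fun a b h => MulAction.injective _ h) (hv x) (hw x) p hp u hu
    exact ⟨p.induce F hs⟩
  obtain ⟨v1, hv1⟩ := @hY F (T.induce F) aF hTF (fun g v w h => hadj _ v.1 w.1 h)
    (fun g v w h h' => hinv (1, g) v.1 w.1 h ⟨congrArg Subtype.val h'.1, congrArg Subtype.val h'.2⟩)
  refine ⟨v1.1, ?_⟩
  rintro ⟨x, y⟩
  have h1 : ((x, y) : X × Y) = (x, 1) * (1, y) := by simp
  have h2 : ((1, y) : X × Y) • v1.1 = v1.1 := congrArg Subtype.val (hv1 y)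
  rw [h1, ← smul_smul, h2]
  exact v1.2 x

theorem t_FAI (hP : S_FAP) (hQ : S_FAQ) : S_FAI := by
  have key : ∀ (ι : Type) [Finite ι], ∀ (G : ι → Type) [∀ i, Group (G i)],
      (∀ i, FA (G i)) → FA (∀ i, G i) := by
    intro ι _
    induction ι using Finite.induction_empty_option with
    | of_equiv e ih =>
      intro G _ hG
      let f : (∀ i, G (e i)) →* ∀ j, G j :=
        { toFun := Equiv.piCongrLeft G e
          map_one' := by
            funext j
            obtain ⟨i, rfl⟩ := e.surjective j
            rw [Equiv.piCongrLeft_apply_apply]; rfl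
          map_mul' := by
            intro a b
            funext j
            obtain ⟨i, rfl⟩ := e.surjective j
            rw [Pi.mul_apply, Equiv.piCongrLeft_apply_apply, Equiv.piCongrLeft_apply_apply,
              Equiv.piCongrLeft_apply_apply]; rfl }
      exact hQ _ _ (ih (fun i => G (e i)) (fun i => hG _)) f (Equiv.piCongrLeft G e).surjective
    | h_empty =>
      intro G _ _ V T _ hT _ _
      obtain ⟨v⟩ := hT.connected.nonempty
      refine ⟨v, fun g => ?_⟩
      have : g = 1 := funext fun i => i.elim
      rw [this, one_smul]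
    | h_option ih =>
      rename_i α _
      intro G _ hG
      have h1 := hP _ _ (hG none) (ih (fun i => G (some i)) (fun i => hG _))
      let f : (G none × ∀ i, G (some i)) →* ∀ i, G i :=
        { toFun := fun p i => match i with
            | none => p.1
            | some a => p.2 a
          map_one' := by funext i; cases i <;> rfl
          map_mul' := by intro a b; funext i; cases i <;> rfl }
      refine hQ _ _ h1 f ?_
      intro z
      refine ⟨(z none, fun a => z (some a)), ?_⟩
      funext i
      cases i <;> rfl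
  intro ι _ G _ hG
  exact key ι G hG

end Pool.Agent.L0h64.GI
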