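import Pool.Agent.L0h38.GI.Stm3

/-!
# Project GI2, module KSN: Krull–Remak–Schmidt
-/

set_option autoImplicit false

namespace Pool.Agent.L0h64.GI

open Pool.Agent.L0h38.GI

theorem t_KSN (hE : S_EXC) : S_KSN := by
  classical
  have key : ∀ n : ℕ, ∀ (ι κ : Type) [Finite ι] [Finite κ] (A : ι → Type) (B : κ → Type)
      [∀ i, Group (A i)] [∀ j, Group (B j)], Nat.card ι = n → (∀ i, FinC (A i)) →
      (∀ i, Indec (A i)) → (∀ j, FinC (B j)) → (∀ j, Indec (B j)) →
      Nonempty ((∀ i, A i) ≃* (∀ j, B j)) → ∃ σ : ι ≃ κ, ∀ i, Nonempty (A i ≃* B (σ i)) := by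
    intro n
    induction n with
    | zero =>
      intro ι κ _ _ A B _ _ hn _ _ _ hB ⟨e⟩
      have hι : IsEmpty ι := by
        rcases Finite.card_eq_zero_iff.1 hn with h
        exact h
      have hκ : IsEmpty κ := by
        by_contra h
        rw [not_isEmpty_iff] at h
        obtain ⟨j⟩ := h
        obtain ⟨x, hx⟩ := (hB j).1
        apply hx
        have h1 : (Pi.mulSingle j x : ∀ j, B j) = 1 := by
          obtain ⟨y, hy⟩ := e.surjective (Pi.mulSingle j x)
          have : y = 1 := funext fun i => isEmptyElim i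
          rw [← hy, this, map_one]
        have h2 := congrFun h1 j
        rw [Pi.mulSingle_eq_same] at h2
        exact h2
      exact ⟨Equiv.equivOfIsEmpty ι κ, fun i => isEmptyElim i⟩
    | succ n ih =>
      intro ι κ _ _ A B _ _ hn hA1 hA2 hB1 hB2 ⟨e⟩
      have hι : Nonempty ι := by
        by_contra h
        rw [not_nonempty_iff] at h
        rw [Nat.card_of_isEmpty] at hn
        omega
      obtain ⟨i0⟩ := hι
      let s : (∀ i, A i) ≃* A i0 × (∀ i : {i // i ≠ i0}, A i.1) :=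
        { Equiv.piSplitAt i0 A with
          map_mul' := fun x y => rfl }
      obtain ⟨j0, ⟨e1⟩, ⟨e2⟩⟩ := hE (A i0) (∀ i : {i // i ≠ i0}, A i.1) κ B (hA1 i0) (hA2 i0) hB2
        ⟨s.symm.trans e⟩
      have hn' : Nat.card {i // i ≠ i0} = n := by
        have h1 := Nat.card_congr (Equiv.optionSubtypeNe i0)
        rw [Finite.card_option, hn] at h1
        omega
      obtain ⟨σ, hσ⟩ := ih {i // i ≠ i0} {j // j ≠ j0} (fun i => A i.1) (fun j => B j.1) hn'
        (fun i => hA1 _) (fun i => hA2 _) (fun j => hB1 _) (fun j => hB2 _) ⟨e2⟩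
      let τ : ι ≃ κ := (Equiv.optionSubtypeNe i0).symm.trans
        ((Equiv.optionCongr σ).trans (Equiv.optionSubtypeNe j0))
      have h0 : τ i0 = j0 := by simp [τ]
      have h1 : ∀ i (hi : i ≠ i0), τ i = (σ ⟨i, hi⟩).1 := by
        intro i hi
        simp [τ, Equiv.optionSubtypeNe_symm_of_ne hi]
      refine ⟨τ, fun i => ?_⟩
      by_cases hi : i = i0
      · subst hi
        rw [h0]
        exact ⟨e1⟩
      · rw [h1 i hi]
        exact hσ ⟨i, hi⟩
  intro ι κ _ _ A B _ _ hA1 hA2 hB1 hB2 he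
  exact key _ ι κ A B rfl hA1 hA2 hB1 hB2 he

end Pool.Agent.L0h64.GI
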