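import Pool.Agent.L0h38.GI.Stm4

/-!
# Project GI2, module UNC: the unconditional result
-/

set_option autoImplicit false

namespace Pool.Agent.L0h64.GI

open Pool.Agent.L0h38.GI Pool.Agent.Q223.IS Pool.Agent.Q32.DP

/-! ### codes of finite groups and of `ℤ` -/

/-- a finite group has a code -/
theorem code_fin (X : Type) [Group X] [Finite X] : ∃ k : Pres, Nonempty (PG k ≃* X) := by
  classical
  obtain ⟨N, ⟨E⟩⟩ := Finite.exists_equiv_fin X
  -- the relators `a_i a_j a_{ij}⁻¹`
  let rl : Fin N × Fin N → Wd := fun p =>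
    [(p.1.1, true), (p.2.1, true)] ++ FreeGroup.invRev [((E (E.symm p.1 * E.symm p.2)).1, true)]
  let k : Pres := (N, (Finset.univ : Finset (Fin N × Fin N)).toList.map rl)
  have hrl : ∀ {M : Type} [Group M] (x : ℕ → M) (p : Fin N × Fin N),
      ev x (rl p) = x p.1.1 * x p.2.1 * (x (E (E.symm p.1 * E.symm p.2)).1)⁻¹ := by
    intro M _ x p
    show ev x ([(p.1.1, true), (p.2.1, true)] ++ FreeGroup.invRev _) = _
    rw [ev_append, ev_inv, ev_cons, ev_true, ev_true, ev_true]
  let xx : ℕ → X := fun i => if h : i < N then E.symm ⟨i, h⟩ else 1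
  have hxx : ∀ i : Fin N, xx i.1 = E.symm i := by
    intro i
    show (if h : i.1 < N then E.symm ⟨i.1, h⟩ else 1) = _
    rw [dif_pos i.2]
  obtain ⟨F, hF⟩ := PG_lift k xx (fun i hi => dif_neg (not_lt.2 hi)) (by
    intro w hw
    obtain ⟨p, -, rfl⟩ := List.mem_map.1 hw
    rw [hrl, hxx, hxx, hxx, E.symm_apply_apply]
    group)
  have hmul : ∀ u v : X, gen k (E (u * v)).1 = gen k (E u).1 * gen k (E v).1 := by
    intro u v
    have h1 : ev (gen k) (rl (E u, E v)) = 1 :=
      PG_rel k (List.mem_map.2 ⟨(E u, E v), by simp, rfl⟩)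
    rw [hrl] at h1
    simp only [E.symm_apply_apply] at h1
    rw [mul_inv_eq_one] at h1
    exact h1.symm
  let S : X →* PG k := MonoidHom.mk' (fun u => gen k (E u).1) hmul
  refine ⟨k, ⟨MulEquiv.ofBijective F ⟨?_, ?_⟩⟩⟩
  · have h1 : S.comp F = MonoidHom.id _ := by
      apply PG_ext
      intro i
      by_cases hi : i < N
      · rw [MonoidHom.comp_apply, hF]
        show gen k (E (if h : i < N then E.symm ⟨i, h⟩ else 1)).1 = gen k i
        rw [dif_pos hi, E.apply_symm_apply]
      · rw [gen_big k (i := i) (not_lt.1 hi), map_one, map_one]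
    intro a b hab
    have h2 := congrArg S hab
    have h3 : ∀ g, S (F g) = g := fun g => DFunLike.congr_fun h1 g
    rwa [h3, h3] at h2
  · intro u
    refine ⟨gen k (E u).1, ?_⟩
    rw [hF, hxx, E.symm_apply_apply]

/-- `ℤ` has a code -/
theorem code_Z : ∃ k : Pres, IsZ (PG k) := by
  let k : Pres := (1, [])
  obtain ⟨F, hF⟩ := PG_lift k (fun i => if i = 0 then Multiplicative.ofAdd (1 : ℤ) else 1)
    (fun i hi => if_neg (by
      have : 1 ≤ i := hi
      omega)) (by simp [k])
  let S : Multiplicative ℤ →* PG k := zpowersHom _ (gen k 0)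
  refine ⟨k, ⟨MulEquiv.ofBijective F ⟨?_, ?_⟩⟩⟩
  · have h1 : S.comp F = MonoidHom.id _ := by
      apply PG_ext
      intro i
      by_cases hi : i = 0
      · subst hi
        rw [MonoidHom.comp_apply, hF, if_pos rfl]
        show zpowersHom _ (gen k 0) (Multiplicative.ofAdd 1) = _
        rw [zpowersHom_apply]
        simp
      · rw [gen_big k (i := i) (by show 1 ≤ i; omega), map_one, map_one]
    intro a b hab
    have h2 := congrArg S hab
    have h3 : ∀ g, S (F g) = g := fun g => DFunLike.congr_fun h1 g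
    rwa [h3, h3] at h2
  · intro u
    refine ⟨gen k 0 ^ (Multiplicative.toAdd u), ?_⟩
    rw [map_zpow, hF, if_pos rfl, ← ofAdd_zsmul]
    simp

/-- groups of codes are finitely generated -/
theorem fg_PG (k : Pres) : Group.FG (PG k) := by
  rw [Group.fg_iff]
  exact ⟨Set.range PresentedGroup.of, PresentedGroup.closure_range_of _, Set.finite_range _⟩

/-! ### functoriality of the graph product -/

section fun_gp

variable {V : Type} {Γ : SimpleGraph V} {G G' : V → Type} [∀ v, Group (G v)] [∀ v, Group (G' v)]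

/-- the homomorphism of graph products given by homomorphisms of the vertex groups -/
def mapG (f : ∀ v, G v →* G' v) : GrP Γ G →* GrP Γ G' :=
  lift (fun v => (inj Γ G' v).comp (f v)) (fun _ _ h x y => inj_comm h _ _)

theorem mapG_inj (f : ∀ v, G v →* G' v) (v : V) (x : G v) :
    mapG (Γ := Γ) f (inj Γ G v x) = inj Γ G' v (f v x) := by
  unfold mapG
  rw [lift_inj]; rfl

/-- isomorphic vertex groups give isomorphic graph products -/
def congG (f : ∀ v, G v ≃* G' v) : GrP Γ G ≃* GrP Γ G' :=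
  MonoidHom.toMulEquiv (mapG fun v => (f v).toMonoidHom) (mapG fun v => (f v).symm.toMonoidHom)
    (by
      apply gp_ext
      intro v x
      rw [MonoidHom.comp_apply, mapG_inj, mapG_inj]
      simp)
    (by
      apply gp_ext
      intro v x
      rw [MonoidHom.comp_apply, mapG_inj, mapG_inj]
      simp)

end fun_gp

theorem indec_congr {X Y : Type} [Group X] [Group Y] (e : X ≃* Y) (h : Indec X) : Indec Y := by
  obtain ⟨⟨x, hx⟩, h2⟩ := h
  refine ⟨⟨e x, fun h => hx (by rw [← map_one e] at h; exact e.injective h)⟩, ?_⟩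
  intro A B _ _ ⟨f⟩
  exact h2 A B ⟨e.trans f⟩

theorem t_UNC (hS : S_SBS) (hA : S_ALG2) (hR : S_FRE) (hF : S_FFA) : S_UNC := by
  have h1 : Solvable (GPC FinInd) := by
    apply hA FinInd hR.1 _ hR.2
    intro k hk
    haveI := hk.1
    exact ⟨hF _ hk.1, (inferInstance : Finite (Subgroup.center (PG k))), hk.2⟩
  have h2 : ∀ p, GPFA p → GPC FinInd p := by
    rintro p ⟨n, Γ, k, hk, ⟨e⟩⟩
    obtain ⟨m, Δ, H, iH, hH, ⟨e'⟩⟩ := hS n Γ (fun i => PG (k i)) (fun i => by
      rcases hk i with h | h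
      · exact Or.inl h
      · exact Or.inr ⟨fg_PG (k i), h⟩)
    have h3 : ∀ w, ∃ k' : Pres, Nonempty (PG k' ≃* H w) := by
      intro w
      rcases hH w with h | h
      · haveI := h.1
        exact code_fin (H w)
      · obtain ⟨k', ⟨e1⟩⟩ := code_Z
        obtain ⟨e2⟩ := h
        exact ⟨k', ⟨e1.trans e2.symm⟩⟩
    choose k' hk' using h3
    have f : ∀ w, PG (k' w) ≃* H w := fun w => (hk' w).some
    refine ⟨m, Δ, k', ?_, ⟨e.trans (e'.trans (congG f).symm)⟩⟩
    intro w
    rcases hH w with h | ⟨⟨g⟩⟩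
    · left
      haveI := h.1
      exact ⟨Finite.of_equiv (H w) (f w).symm.toEquiv, indec_congr (f w).symm h.2⟩
    · right
      exact ⟨(f w).trans g⟩
  obtain ⟨f, hf, hf2⟩ := h1
  exact ⟨f, hf, fun a b ha hb => hf2 a b (h2 a ha) (h2 b hb)⟩

end Pool.Agent.L0h64.GI
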