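import Pool.Agent.L0h38.GI.Stm

/-!
# Project GI, module VTX: an isomorphism maps FA vertex groups to conjugates of FA vertex groups
-/

set_option autoImplicit false

namespace Pool.Agent.L0h64.GI

open Pool.Agent.L0h38.GI

/-- `FA` groups which are allowed are centreless and indecomposable -/
theorem ok_fa (hZ : S_FAZ) {X : Type} [Group X] (h : Ok X) (hX : FA X) : Cless X ∧ Indec X := by
  rcases h with h | h
  · exact h.2
  · exfalso
    obtain ⟨f⟩ := h
    have h1 := hZ X hX f.toMonoidHom (f.symm (Multiplicative.ofAdd 1))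
    have h2 : f.toMonoidHom (f.symm (Multiplicative.ofAdd 1)) = Multiplicative.ofAdd 1 := by
      simp
    rw [h2] at h1
    have h3 : (1 : ℤ) = 0 := by
      have := congrArg Multiplicative.toAdd h1
      simp at this
    omega

section rel

variable {V W : Type} {Γ : SimpleGraph V} {Δ : SimpleGraph W}
    {G : V → Type} {H : W → Type} [∀ v, Group (G v)] [∀ w, Group (H w)]

/-- vertex groups which correspond to each other -/
def R (e : GrP Γ G ≃* GrP Δ H) (v : V) (w : W) : Prop :=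
  ∃ g, ∀ y, y ∈ (inj Γ G v).range ↔ g⁻¹ * e y * g ∈ (inj Δ H w).range

theorem R_unique (hR : S_RET) (e : GrP Γ G ≃* GrP Δ H) {v : V} (hx : ∃ x : G v, x ≠ 1) {w w' : W}
    (h : R e v w) (h' : R e v w') : w = w' := by
  by_contra hne
  obtain ⟨x, hx⟩ := hx
  obtain ⟨g, hg⟩ := h
  obtain ⟨g', hg'⟩ := h'
  obtain ⟨a, ha⟩ := (hg (inj Γ G v x)).1 ⟨x, rfl⟩
  obtain ⟨b, hb⟩ := (hg' (inj Γ G v x)).1 ⟨x, rfl⟩
  have h1 : e (inj Γ G v x) = g * inj Δ H w a * g⁻¹ := by rw [ha]; group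
  have h2 : e (inj Γ G v x) = g' * inj Δ H w' b * g'⁻¹ := by rw [hb]; group
  have h3 : toPi (e (inj Γ G v x)) w = 1 := by
    rw [h2, map_mul, map_mul, map_inv, Pi.mul_apply, Pi.mul_apply, toPi_inj_ne hne, Pi.inv_apply]
    group
  rw [h1, map_mul, map_mul, map_inv, Pi.mul_apply, Pi.mul_apply, toPi_inj_same, Pi.inv_apply] at h3
  have h4 : a = 1 := by
    have : a = (toPi g w)⁻¹ * (toPi g w * a * (toPi g w)⁻¹) * toPi g w := by group
    rw [this, h3]; group
  rw [h4, map_one, mul_one, mul_inv_cancel] at h1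
  have h5 : inj Γ G v x = 1 := by
    apply e.injective
    rw [h1, map_one]
  obtain ⟨-, -, -, -, hinj, -⟩ := hR V Γ G ∅ ∅
  apply hx
  apply hinj v
  rw [h5, map_one]

theorem R_inj (e : GrP Γ G ≃* GrP Δ H) {v v' : V} (hx : ∃ x : G v, x ≠ 1) {w : W}
    (h : R e v w) (h' : R e v' w) : v = v' := by
  by_contra hne
  obtain ⟨x, hx⟩ := hx
  obtain ⟨g, hg⟩ := h
  obtain ⟨g', hg'⟩ := h'
  obtain ⟨a, ha⟩ := (hg (inj Γ G v x)).1 ⟨x, rfl⟩
  obtain ⟨h0, hh0⟩ := e.surjective (g' * g⁻¹)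
  have h1 : g'⁻¹ * e (h0 * inj Γ G v x * h0⁻¹) * g' = inj Δ H w a := by
    rw [map_mul, map_mul, map_inv, hh0, ha]; group
  have h2 : h0 * inj Γ G v x * h0⁻¹ ∈ (inj Γ G v').range := by
    rw [hg', h1]
    exact ⟨a, rfl⟩
  obtain ⟨x', hx'⟩ := h2
  have h3 : toPi (inj Γ G v' x') v = toPi (h0 * inj Γ G v x * h0⁻¹) v := by rw [hx']
  rw [toPi_inj_ne hne, map_mul, map_mul, map_inv, Pi.mul_apply, Pi.mul_apply, toPi_inj_same,
    Pi.inv_apply] at h3
  apply hx
  have : x = (toPi h0 v)⁻¹ * (toPi h0 v * x * (toPi h0 v)⁻¹) * toPi h0 v := by group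
  rw [this, ← h3]; group

/-- the restriction of an isomorphism to maximal cliques -/
theorem clique_R (hQ : S_CLQ) (hK : S_KRS) (e : GrP Γ G ≃* GrP Δ H) [Finite V] [Finite W]
    {K : Set V} {K' : Set W}
    (hKc : Γ.IsClique K) (hKc' : Δ.IsClique K')
    (h1 : ∀ v ∈ K, Cless (G v) ∧ Indec (G v)) (h2 : ∀ w ∈ K', Cless (H w) ∧ Indec (H w))
    (g : GrP Δ H) (hg : ∀ y, y ∈ P Γ G K ↔ g⁻¹ * e y * g ∈ P Δ H K') :
    ∀ v ∈ K, ∃ w ∈ K', R e v w := by
  classical
  intro v hv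
  obtain ⟨-, κ, hκi, hκr, -, hκs⟩ := hQ V Γ G K hKc (Set.toFinite K)
  obtain ⟨-, κ', hκi', hκr', -, hκs'⟩ := hQ W Δ H K' hKc' (Set.toFinite K')
  let E : GrP Γ G ≃* GrP Δ H := e.trans (MulAut.conj g⁻¹)
  have hE : ∀ y, E y = g⁻¹ * e y * g := by
    intro y
    show MulAut.conj g⁻¹ (e y) = _
    rw [MulAut.conj_apply, inv_inv]
  have hm : κ.range.map E.toMonoidHom = κ'.range := by
    rw [hκr, hκr']
    ext z
    rw [Subgroup.mem_map]
    constructor
    · rintro ⟨y, hy, rfl⟩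
      have := (hg y).1 hy
      rw [← hE] at this
      exact this
    · intro hz
      obtain ⟨y, rfl⟩ := E.surjective z
      rw [hE] at hz
      exact ⟨y, (hg y).2 hz, rfl⟩
  let e1 : (∀ v : K, G v) ≃* (∀ w : K', H w) :=
    (MonoidHom.ofInjective hκi).trans ((E.subgroupMap κ.range).trans
      ((MulEquiv.subgroupCongr hm).trans (MonoidHom.ofInjective hκi').symm))
  have he1 : ∀ z, κ' (e1 z) = E (κ z) := by
    intro z
    have : ((MonoidHom.ofInjective hκi') (e1 z) : GrP Δ H) = E (κ z) := by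
      show ((MonoidHom.ofInjective hκi') ((MonoidHom.ofInjective hκi').symm _) : GrP Δ H) = _
      rw [MulEquiv.apply_symm_apply]
      rfl
    exact this
  obtain ⟨j, hj⟩ := hK K K' (fun v => G v) (fun w => H w) (fun i => (h1 i.1 i.2).1)
    (fun i => (h1 i.1 i.2).2) (fun j => (h2 j.1 j.2).1) (fun j => (h2 j.1 j.2).2) e1 ⟨v, hv⟩
  refine ⟨j.1, j.2, g, ?_⟩
  intro y
  rw [← hE]
  constructor
  · rintro ⟨x, rfl⟩
    have hz : ∀ i', i' ≠ (⟨v, hv⟩ : K) → (Pi.mulSingle (⟨v, hv⟩ : K) x : ∀ v : K, G v) i' = 1 :=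
      fun i' hi' => Pi.mulSingle_eq_of_ne (M := fun v : K => G v) hi' x
    have h3 := (hj _).1 hz
    have h4 := hκs _ _ hz
    rw [Pi.mulSingle_eq_same] at h4
    have h5 := hκs' _ _ h3
    rw [he1, h4] at h5
    exact ⟨_, h5.symm⟩
  · rintro ⟨x', hx'⟩
    have hy : y ∈ P Γ G K := by
      rw [hg, ← hE, ← hx']
      exact inj_mem j.2 x'
    rw [← hκr] at hy
    obtain ⟨z, rfl⟩ := hy
    have hz : ∀ j', j' ≠ j → (Pi.mulSingle j x' : ∀ w : K', H w) j' = 1 :=
      fun i' hi' => Pi.mulSingle_eq_of_ne (M := fun w : K' => H w) hi' x'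
    have h4 := hκs' _ _ hz
    rw [Pi.mulSingle_eq_same, hx', ← he1] at h4
    have h5 := hκi' h4
    rw [h5] at hz
    have h6 := (hj _).2 hz
    exact ⟨_, (hκs _ _ h6).symm⟩

theorem exists_max [Finite V] (K : Set V) (hK : Γ.IsClique K) (hF : ∀ v ∈ K, FA (G v)) :
    ∃ K', K ⊆ K' ∧ MaxF Γ G K' := by
  obtain ⟨K', h1, h2⟩ := (Set.toFinite {K : Set V | Γ.IsClique K ∧ ∀ v ∈ K, FA (G v)}).exists_le_maximal
    (a := K) ⟨hK, hF⟩
  refine ⟨K', h1, h2.prop, ?_⟩
  intro K'' hc hf hsub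
  exact Set.Subset.antisymm (h2.le_of_ge (y := K'') ⟨hc, hf⟩ hsub) hsub

end rel

theorem t_VTX (hM : S_MAX) (hK : S_KRS) (hQ : S_CLQ) (hR : S_RET) (hZ : S_FAZ) : S_VTX := by
  classical
  intro V W _ _ Γ Δ G H _ _ hG hH e
  -- every FA vertex has a partner
  have key : ∀ K : Set V, MaxF Γ G K → ∃ K' : Set W, MaxF Δ H K' ∧ ∀ v ∈ K, ∃ w ∈ K', R e v w := by
    intro K hKm
    obtain ⟨K', hK', g, hg⟩ := hM V W Γ Δ G H hG hH e K hKm
    exact ⟨K', hK', clique_R hQ hK e hKm.1.1 hK'.1.1 (fun v hv => ok_fa hZ (hG v) (hKm.1.2 v hv))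
      (fun w hw => ok_fa hZ (hH w) (hK'.1.2 w hw)) g hg⟩
  have hnt : ∀ v, FA (G v) → ∃ x : G v, x ≠ 1 := fun v hv => (ok_fa hZ (hG v) hv).2.1
  have ex : ∀ v, ∃ w, FA (G v) → FA (H w) ∧ R e v w := by
    intro v
    by_cases hv : FA (G v)
    · obtain ⟨K, hvK, hKm⟩ := exists_max (Γ := Γ) (G := G) {v} (by simp) (by simpa using hv)
      obtain ⟨K', hK', h⟩ := key K hKm
      obtain ⟨w, hw, hr⟩ := h v (hvK rfl)
      exact ⟨w, fun _ => ⟨hK'.1.2 w hw, hr⟩⟩
    · by_cases hW : Nonempty W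
      · obtain ⟨w⟩ := hW
        exact ⟨w, fun h => absurd h hv⟩
      · -- `W` empty: the group is trivial, but the vertex group of `v` is not
        exfalso
        have hx : ∃ x : G v, x ≠ 1 := by
          rcases hG v with h | h
          · exact h.2.2.1
          · obtain ⟨f⟩ := h
            refine ⟨f.symm (Multiplicative.ofAdd 1), fun h1 => ?_⟩
            have h2 := congrArg f h1
            rw [f.apply_symm_apply, map_one f] at h2
            have h3 : (1 : ℤ) = 0 := congrArg Multiplicative.toAdd h2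
            omega
        obtain ⟨x, hx⟩ := hx
        obtain ⟨-, -, -, -, hinj, -⟩ := hR V Γ G ∅ ∅
        have h1 : P Δ H Set.univ ≤ ⊥ := by
          rw [P_le]
          intro w
          exact absurd ⟨w⟩ hW
        have h2 : e (inj Γ G v x) ∈ P Δ H Set.univ := by rw [P_top]; trivial
        have h3 := h1 h2
        rw [Subgroup.mem_bot] at h3
        apply hx
        apply hinj v
        rw [map_one]
        apply e.injective
        rw [h3, map_one]
  choose s hs using ex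
  refine ⟨s, fun v hv => hs v hv, ?_⟩
  intro v v' hv hv' hadj
  obtain ⟨K, hvK, hKm⟩ := exists_max (Γ := Γ) (G := G) {v, v'}
    (by rw [SimpleGraph.isClique_pair]; exact fun _ => hadj)
    (by
      intro u hu
      rcases hu with rfl | rfl
      · exact hv
      · exact hv')
  obtain ⟨K', hK', h⟩ := key K hKm
  obtain ⟨w, hw, hr⟩ := h v (hvK (by simp))
  obtain ⟨w', hw', hr'⟩ := h v' (hvK (by simp))
  have e1 : s v = w := R_unique hR e (hnt v hv) (hs v hv).2 hr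
  have e2 : s v' = w' := R_unique hR e (hnt v' hv') (hs v' hv').2 hr'
  rw [e1, e2]
  apply hK'.1.1 hw hw'
  intro hww
  rw [← hww] at hr'
  exact hadj.ne (R_inj e (hnt v hv) hr hr')

end Pool.Agent.L0h64.GI
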